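import Pool.Agent.Helper17.SO.Stmts
import Pool.Agent.Helper94.BE.Mertens
import Pool.Agent.Helper58.MP.MERT

set_option autoImplicit false

open Finset

namespace Pool.Agent.Helper17.SO

/-- Mertens for the primes up to `z` -/
theorem mer_abs : ∃ C : ℝ, 0 ≤ C ∧ ∀ z : ℕ, 2 ≤ z →
    |∑ p ∈ (range (z + 1)).filter Nat.Prime, 1 / (p : ℝ) - Real.log (Real.log z)| ≤ C := by
  obtain ⟨c, hc, hM⟩ := Pool.Agent.Helper94.Mertens.exists_mertens
  refine ⟨|Real.log c| + Real.log 2, by have := Real.log_pos (x := 2) (by norm_num); positivity,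
    fun z hz => ?_⟩
  have hz2 : (2 : ℝ) ≤ z := by exact_mod_cast hz
  have hlog : 0 < Real.log z := Real.log_pos (by linarith)
  have hl2 : 0 < Real.log 2 := Real.log_pos (by norm_num)
  set P := (range (z + 1)).filter Nat.Prime with hP
  have hprime : ∀ p ∈ P, p.Prime := fun p hp => (Finset.mem_filter.mp hp).2
  rw [abs_le]
  constructor
  · -- lower bound
    have h1 := Pool.Agent.Helper96.MP.mert_harmonic (z + 1) (by omega)
    have h2 := Pool.Agent.Helper96.MP.mert_sq z (by omega)
    have hPb : Nat.primesBelow (z + 1) = P := rfl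
    rw [hPb] at h1 h2
    have h3 : ∏ q ∈ P, (1 + 1 / (q : ℝ)) ≤ Real.exp (∑ q ∈ P, 1 / (q : ℝ)) := by
      rw [Real.exp_sum]
      refine prod_le_prod (fun q _ => by positivity) fun q _ => ?_
      rw [add_comm]
      exact Real.add_one_le_exp _
    have h4 : (∏ q ∈ P, (1 - (q : ℝ)⁻¹)⁻¹) * ∏ q ∈ P, (1 - ((q : ℝ) ^ 2)⁻¹) =
        ∏ q ∈ P, (1 + 1 / (q : ℝ)) := by
      rw [← prod_mul_distrib]
      refine prod_congr rfl fun q hq => ?_
      have h5 : (2 : ℝ) ≤ q := by exact_mod_cast (hprime q hq).two_le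
      have h6 : (q : ℝ) ≠ 0 := by positivity
      have h7 : (q : ℝ) - 1 ≠ 0 := by
        intro h
        linarith
      have h8 : (1 - (q : ℝ)⁻¹) ≠ 0 := by
        intro h
        apply h7
        field_simp at h
        linarith
      rw [inv_mul_eq_div, div_eq_iff h8]
      field_simp
      ring
    have h5 : Real.log z * (1 / 2) ≤ Real.exp (∑ q ∈ P, 1 / (q : ℝ)) := by
      have h6 : Real.log z ≤ ∏ q ∈ P, (1 - (q : ℝ)⁻¹)⁻¹ := by
        refine le_trans (Real.log_le_log (by linarith) ?_) h1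
        push_cast
        linarith
      calc Real.log z * (1 / 2) ≤
          (∏ q ∈ P, (1 - (q : ℝ)⁻¹)⁻¹) * ∏ q ∈ P, (1 - ((q : ℝ) ^ 2)⁻¹) :=
            mul_le_mul h6 h2 (by norm_num) (hlog.le.trans h6)
        _ = _ := h4
        _ ≤ _ := h3
    have h6 := Real.log_le_log (by positivity) h5
    rw [Real.log_exp, Real.log_mul hlog.ne' (by norm_num), one_div, Real.log_inv] at h6
    have := abs_nonneg (Real.log c)
    linarith
  · -- upper bound
    have h1 := hM z hz
    rw [← hP] at h1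
    have h2 : ∏ p ∈ P, (1 - 1 / (p : ℝ)) ≤ Real.exp (-∑ p ∈ P, 1 / (p : ℝ)) := by
      rw [← sum_neg_distrib, Real.exp_sum]
      refine prod_le_prod (fun q hq => ?_) fun q _ => ?_
      · have h5 : (2 : ℝ) ≤ q := by exact_mod_cast (hprime q hq).two_le
        have : 1 / (q : ℝ) ≤ 1 / 2 := one_div_le_one_div_of_le (by norm_num) h5
        linarith
      · have := Real.add_one_le_exp (-(1 / (q : ℝ)))
        linarith
    have h3 := Real.log_le_log (by positivity) (h1.trans h2)
    rw [Real.log_exp, Real.log_div hc.ne' hlog.ne'] at h3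
    have := neg_abs_le (Real.log c)
    linarith

theorem st_MER : ST_MER := by
  obtain ⟨C, hC, h⟩ := mer_abs
  refine ⟨2 * C, by positivity, fun u w hu huw => ?_⟩
  have h1 := h u hu
  have h2 := h w (hu.trans huw)
  have hu2 : (2 : ℝ) ≤ u := by exact_mod_cast hu
  have hw2 : (2 : ℝ) ≤ w := by exact_mod_cast hu.trans huw
  have hlu : 0 < Real.log u := Real.log_pos (by linarith)
  have hlw : 0 < Real.log w := Real.log_pos (by linarith)
  have h3 : ∑ p ∈ PP u w, 1 / (p : ℝ) =
      ∑ p ∈ (range (w + 1)).filter Nat.Prime, 1 / (p : ℝ) -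
        ∑ p ∈ (range (u + 1)).filter Nat.Prime, 1 / (p : ℝ) := by
    rw [eq_sub_iff_add_eq', ← sum_union]
    · refine sum_congr ?_ fun _ _ => rfl
      ext p
      simp only [PP, mem_union, mem_filter, mem_range, mem_Ioc]
      constructor
      · rintro (⟨h4, h5⟩ | ⟨h4, h5⟩)
        · exact ⟨by omega, h5⟩
        · exact ⟨by omega, h5⟩
      · rintro ⟨h4, h5⟩
        by_cases h6 : p < u + 1
        · exact Or.inl ⟨h6, h5⟩
        · exact Or.inr ⟨⟨by omega, by omega⟩, h5⟩
    · rw [disjoint_left]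
      intro p hp hp'
      simp only [PP, mem_filter, mem_range, mem_Ioc] at hp hp'
      omega
  have h4 : LL u w = Real.log (Real.log w) - Real.log (Real.log u) := by
    unfold LL
    rw [Real.log_div hlw.ne' hlu.ne']
  rw [h3, h4]
  rw [abs_le] at *
  constructor <;> linarith [h1.1, h1.2, h2.1, h2.2]

end Pool.Agent.Helper17.SO
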