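import Pool.Agent.Helper17.SO.Stmts

set_option autoImplicit false

open Finset

namespace Pool.Agent.Helper17.SO

theorem inc_apply {v : ℕ} (B : Fin v → Finset (Fin v)) (a i : Fin v) :
    inc B a i = if a ∈ B i then 1 else 0 := rfl

theorem inc_mulT {v : ℕ} (B : Fin v → Finset (Fin v)) (a b : Fin v) :
    (inc B * (inc B).transpose) a b =
      ((univ.filter (fun i => a ∈ B i ∧ b ∈ B i)).card : ℤ) := by
  rw [Matrix.mul_apply, card_filter]
  push_cast
  refine sum_congr rfl fun i _ => ?_
  rw [Matrix.transpose_apply, inc_apply, inc_apply]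
  by_cases h1 : a ∈ B i <;> by_cases h2 : b ∈ B i <;> simp [h1, h2]

theorem inc_row {v : ℕ} (B : Fin v → Finset (Fin v)) (a : Fin v) :
    ∑ i, inc B a i = ((univ.filter (fun i => a ∈ B i)).card : ℤ) := by
  rw [card_filter]
  push_cast
  exact sum_congr rfl fun i _ => inc_apply B a i

theorem inc_col {v : ℕ} (B : Fin v → Finset (Fin v)) (i : Fin v) :
    ∑ a, inc B a i = ((B i).card : ℤ) := by
  have h1 : (B i).card = (univ.filter (fun a => a ∈ B i)).card := by
    congr 1
    ext a
    simp
  rw [h1, card_filter]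
  push_cast
  exact sum_congr rfl fun a _ => inc_apply B a i

theorem st_INC : ST_INC := by
  intro v k lam B hlam hk hkv hB
  classical
  have hv : 0 < v := by omega
  -- counting pairs
  have h1 : ∀ a : Fin v, k * (univ.filter (fun i => a ∈ B i)).card =
      (univ.filter (fun i => a ∈ B i)).card + lam * (v - 1) := by
    intro a
    have e1 : ∑ b : Fin v, (univ.filter (fun i => a ∈ B i ∧ b ∈ B i)).card =
        k * (univ.filter (fun i => a ∈ B i)).card := by
      have e2 : ∀ b : Fin v, (univ.filter (fun i => a ∈ B i ∧ b ∈ B i)).card =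
          ∑ i ∈ univ.filter (fun i => a ∈ B i), if b ∈ B i then 1 else 0 := by
        intro b
        rw [← card_filter, filter_filter]
      rw [sum_congr rfl fun b _ => e2 b, sum_comm]
      have e3 : ∀ i ∈ univ.filter (fun i => a ∈ B i),
          (∑ b : Fin v, if b ∈ B i then 1 else 0) = k := by
        intro i _
        rw [← card_filter, ← hB.size i]
        congr 1
        ext b
        simp
      rw [sum_congr rfl e3, sum_const, smul_eq_mul, mul_comm]
    have e4 : ∑ b : Fin v, (univ.filter (fun i => a ∈ B i ∧ b ∈ B i)).card =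
        (univ.filter (fun i => a ∈ B i)).card + lam * (v - 1) := by
      rw [← add_sum_erase univ _ (mem_univ a)]
      have e5 : (univ.filter (fun i => a ∈ B i ∧ a ∈ B i)).card =
          (univ.filter (fun i => a ∈ B i)).card := by simp
      rw [e5]
      have e6 : ∀ b ∈ univ.erase a, (univ.filter (fun i => a ∈ B i ∧ b ∈ B i)).card = lam := by
        intro b hb
        exact hB.pair a b (ne_of_mem_erase hb).symm
      rw [sum_congr rfl e6, sum_const, smul_eq_mul, card_erase_of_mem (mem_univ a), card_univ,
        Fintype.card_fin, mul_comm]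
    rw [← e1, e4]
  have hk2 : 2 ≤ k := by
    by_contra hcon
    have hk1 : k = 1 := by omega
    have := h1 ⟨0, hv⟩
    rw [hk1, one_mul] at this
    have h2 : lam * (v - 1) = 0 := by omega
    rcases Nat.mul_eq_zero.1 h2 with h3 | h3 <;> omega
  -- double counting
  have h2 : ∑ a : Fin v, (univ.filter (fun i => a ∈ B i)).card = v * k := by
    simp only [card_filter]
    rw [sum_comm]
    have e3 : ∀ i ∈ (univ : Finset (Fin v)), (∑ b : Fin v, if b ∈ B i then 1 else 0) = k := by
      intro i _
      rw [← card_filter, ← hB.size i]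
      congr 1
      ext b
      simp
    rw [sum_congr rfl e3, sum_const, smul_eq_mul, card_univ, Fintype.card_fin]
  have h3 : v * (lam * (v - 1)) = v * (k * (k - 1)) := by
    have e1 : ∑ a : Fin v, k * (univ.filter (fun i => a ∈ B i)).card =
        ∑ a : Fin v, ((univ.filter (fun i => a ∈ B i)).card + lam * (v - 1)) :=
      sum_congr rfl fun a _ => h1 a
    rw [← mul_sum, sum_add_distrib, h2, sum_const, smul_eq_mul, card_univ, Fintype.card_fin] at e1
    obtain ⟨m, rfl⟩ : ∃ m, k = m + 1 := ⟨k - 1, by omega⟩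
    simp only [Nat.add_sub_cancel] at *
    nlinarith
  have h4 : lam * (v - 1) = k * (k - 1) := Nat.eq_of_mul_eq_mul_left hv h3
  have h5 : ∀ a : Fin v, (univ.filter (fun i => a ∈ B i)).card = k := by
    intro a
    have e1 := h1 a
    rw [h4] at e1
    obtain ⟨m, rfl⟩ : ∃ m, k = m + 1 := ⟨k - 1, by omega⟩
    simp only [Nat.add_sub_cancel] at *
    have hm : 0 < m := by omega
    refine Nat.eq_of_mul_eq_mul_left hm ?_
    linarith
  refine ⟨?_, ?_, ?_, ?_, ?_⟩
  · by_contra hcon
    push Not at hcon
    have e1 : k * (k - 1) < lam * (v - 1) := by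
      obtain ⟨m, rfl⟩ : ∃ m, k = m + 1 := ⟨k - 1, by omega⟩
      simp only [Nat.add_sub_cancel] at *
      have e2 : m + 1 ≤ v - 1 := by omega
      have e3 : (m + 1) * (m + 1) ≤ lam * (v - 1) := Nat.mul_le_mul hcon e2
      nlinarith
    omega
  · obtain ⟨m, rfl⟩ : ∃ m, k = m + 1 := ⟨k - 1, by omega⟩
    obtain ⟨n, rfl⟩ : ∃ n, v = n + 1 := ⟨v - 1, by omega⟩
    simp only [Nat.add_sub_cancel] at *
    linarith
  · ext a b
    rw [inc_mulT, Matrix.add_apply, Matrix.smul_apply, Matrix.smul_apply, Matrix.of_apply,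
      smul_eq_mul, smul_eq_mul, mul_one]
    by_cases hab : a = b
    · subst hab
      rw [Matrix.one_apply_eq, mul_one]
      have e5 : (univ.filter (fun i => a ∈ B i ∧ a ∈ B i)).card =
          (univ.filter (fun i => a ∈ B i)).card := by simp
      rw [e5, h5 a]
      ring
    · rw [Matrix.one_apply_ne hab, mul_zero, zero_add, hB.pair a b hab]
  · intro a
    rw [inc_row, h5 a]
  · intro i
    rw [inc_col, hB.size i]

end Pool.Agent.Helper17.SO
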